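import Pool.Agent.Helper28.ND.Spec3

/-!
# Part CRE of the swarm ND2 (MP_0c2f33_an): the creation stage
-/

open MeasureTheory Set Filter Topology
open scoped ENNReal NNReal

namespace Pool.Agent.Helper78.ND.CRE

open Pool.Agent.Helper28.ND

noncomputable section

theorem eta2 (x : Fin 2 → ℝ) : ![x 0, x 1] = x := by
  ext i
  fin_cases i <;> rfl

theorem measQ4 : MeasurableSet Q4 := by
  have h : Q4 = ({x : Fin 2 → ℝ | 0 < x 0} ∩ {x | x 0 < 1 / 4}) ∩
      ({x | 0 < x 1} ∩ {x | x 1 ≤ 1}) := by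
    ext x
    simp only [Q4, mem_setOf_eq, mem_inter_iff]
    tauto
  rw [h]
  exact ((measurableSet_lt measurable_const (measurable_pi_apply 0)).inter
    (measurableSet_lt (measurable_pi_apply 0) measurable_const)).inter
    ((measurableSet_lt measurable_const (measurable_pi_apply 1)).inter
    (measurableSet_le (measurable_pi_apply 1) measurable_const))

theorem volQ4 : volume Q4 ≠ ⊤ := by
  have h : Q4 ⊆ Icc (fun _ => (0 : ℝ)) (fun _ => 1) := by
    rintro x ⟨h1, h2, h3, h4⟩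
    constructor
    · intro i
      fin_cases i
      · exact h1.le
      · exact h3.le
    · intro i
      fin_cases i
      · change x 0 ≤ 1
        linarith
      · exact h4
  exact ((measure_mono h).trans_lt isCompact_Icc.measure_lt_top).ne

theorem to_prod (G : (Fin 2 → ℝ) → ℝ) :
    ∫ x in Q4, G x = ∫ p in (Ioo (0 : ℝ) (1 / 4)) ×ˢ (Ioc (0 : ℝ) 1), G ![p.1, p.2] := by
  have h := (volume_preserving_finTwoArrow ℝ).setIntegral_preimage_emb
    (MeasurableEquiv.finTwoArrow (α := ℝ)).measurableEmbedding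
    (fun p : ℝ × ℝ => G ![p.1, p.2]) ((Ioo (0 : ℝ) (1 / 4)) ×ˢ (Ioc (0 : ℝ) 1))
  rw [← h]
  have h1 : (MeasurableEquiv.finTwoArrow (α := ℝ)) ⁻¹' ((Ioo (0 : ℝ) (1 / 4)) ×ˢ (Ioc (0 : ℝ) 1)) =
      Q4 := by
    ext x
    simp only [Q4, mem_preimage, mem_prod, mem_Ioo, mem_Ioc, mem_setOf_eq,
      MeasurableEquiv.finTwoArrow, MeasurableEquiv.coe_mk, finTwoArrowEquiv_apply]
    tauto
  rw [h1]
  refine setIntegral_congr_fun measQ4 fun x _ => ?_
  change G x = G ![x 0, x 1]
  rw [eta2]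

theorem trans_int {F : (Fin 2 → ℝ) → ℝ} (hFm : Measurable F) {C : ℝ} (hb : ∀ x, |F x| ≤ C)
    (hper : ∀ x, F ![x 0, x 1 + 1] = F x) (a : ℝ) :
    ∫ x in Q4, F ![x 0, x 1 + a] = ∫ x in Q4, F x := by
  have hvec : ∀ a : ℝ, Measurable (fun p : ℝ × ℝ => ![p.1, p.2 + a]) := by
    intro a
    apply measurable_pi_lambda
    intro i
    fin_cases i
    · exact measurable_fst
    · exact measurable_snd.add_const a
  have hfin : volume ((Ioo (0 : ℝ) (1 / 4)) ×ˢ (Ioc (0 : ℝ) 1)) ≠ ⊤ := by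
    rw [Measure.volume_eq_prod, Measure.prod_prod]
    simp [ENNReal.mul_eq_top]
  have hint : ∀ a : ℝ, IntegrableOn (fun p : ℝ × ℝ => F ![p.1, p.2 + a])
      ((Ioo (0 : ℝ) (1 / 4)) ×ˢ (Ioc (0 : ℝ) 1)) (volume.prod volume) := by
    intro a
    refine Measure.integrableOn_of_bounded (M := C) ?_
      (hFm.comp (hvec a)).aestronglyMeasurable ?_
    · exact hfin
    · exact Filter.Eventually.of_forall fun p => hb _
  rw [to_prod, to_prod]
  have e0 : (fun p : ℝ × ℝ => F ![p.1, p.2]) = fun p : ℝ × ℝ => F ![p.1, p.2 + 0] := by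
    simp
  have e1 : (fun p : ℝ × ℝ => F ![(![p.1, p.2] : Fin 2 → ℝ) 0, (![p.1, p.2] : Fin 2 → ℝ) 1 + a])
      = fun p : ℝ × ℝ => F ![p.1, p.2 + a] := by
    simp
  rw [e0, e1, Measure.volume_eq_prod, setIntegral_prod _ (hint a), setIntegral_prod _ (hint 0)]
  refine setIntegral_congr_fun measurableSet_Ioo fun y _ => ?_
  have hp : Function.Periodic (fun z : ℝ => F ![y, z]) 1 := by
    intro z
    exact hper ![y, z]
  have h2 : ∀ a : ℝ, ∫ z in Ioc (0 : ℝ) 1, F ![y, z + a] = ∫ z in (0 : ℝ)..(0 + 1), F ![y, z] := by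
    intro a
    rw [← intervalIntegral.integral_of_le zero_le_one]
    rw [intervalIntegral.integral_comp_add_right (fun z => F ![y, z]) a]
    have := hp.intervalIntegral_add_eq (0 + a) 0
    rw [show (1 : ℝ) + a = (0 + a) + 1 by ring]
    exact this
  change ∫ z in Ioc (0 : ℝ) 1, F ![y, z + a] = ∫ z in Ioc (0 : ℝ) 1, F ![y, z + 0]
  rw [h2 a, h2 0]

/-! ### elementary estimates -/

theorem jj_nonneg (y : ℝ) : 0 ≤ jj y := by
  unfold jj
  positivity

theorem jj_mono {y z : ℝ} (h : y ≤ z) : jj y ≤ jj z := by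
  unfold jj
  exact pow_le_pow_left₀ (le_max_right _ _) (max_le_max_right 0 h) 3

theorem jj_half {y : ℝ} (h : 1 / 2 ≤ y) : 1 / 8 ≤ jj y := by
  calc (1 : ℝ) / 8 = jj (1 / 2) := by unfold jj; norm_num
    _ ≤ jj y := jj_mono h

theorem jj_le_one {y : ℝ} (h : y ≤ 1) : jj y ≤ 1 := by
  calc jj y ≤ jj 1 := jj_mono h
    _ = 1 := by unfold jj; norm_num

theorem jj_of_nonpos {y : ℝ} (h : y ≤ 0) : jj y = 0 := by
  unfold jj
  rw [max_eq_right h]
  norm_num

theorem psiA_le (r σ l A : ℝ) (x : Fin 2 → ℝ) : psiA r σ l A x ≤ A := by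
  unfold psiA
  have h1 := Real.exp_pos (-σ * (x 0 - l))
  have h2 := Real.cos_le_one (2 * Real.pi * x 1 / r)
  have h3 : 0 ≤ 4 * (x 0 / r) ^ 2 := by positivity
  linarith

theorem psiA_pos {r σ l A : ℝ} {x : Fin 2 → ℝ} (hσ : 0 < σ) (hA : A ≤ 1)
    (h : 0 < psiA r σ l A x) : l < x 0 := by
  unfold psiA at h
  have h2 := Real.cos_le_one (2 * Real.pi * x 1 / r)
  have h3 : 0 ≤ 4 * (x 0 / r) ^ 2 := by positivity
  have h4 : Real.exp (-σ * (x 0 - l)) < 1 := by linarith
  rw [Real.exp_lt_one_iff] at h4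
  by_contra hcon
  push Not at hcon
  nlinarith

/-- a point of the progression is near the maximum of the cosine -/
theorem exists_shift (θ : ℝ) : ∃ k ∈ Finset.range 12,
    2 * (1 - Real.cos (θ + (k : ℝ) * (Real.pi / 6))) ≤ 7 / 100 := by
  set q : ℤ := round (θ / (Real.pi / 6)) with hq
  have hpi : 0 < Real.pi := Real.pi_pos
  have hpi6 : 0 < Real.pi / 6 := by positivity
  have h1 : |θ / (Real.pi / 6) - q| ≤ 1 / 2 := abs_sub_round _
  have h2 : |θ - q * (Real.pi / 6)| ≤ Real.pi / 12 := by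
    have e : θ - q * (Real.pi / 6) = (θ / (Real.pi / 6) - q) * (Real.pi / 6) := by
      field_simp
    rw [e, abs_mul, abs_of_pos hpi6]
    nlinarith
  refine ⟨((-q) % 12).toNat, ?_, ?_⟩
  · rw [Finset.mem_range]
    have h3 : (-q) % 12 < 12 := Int.emod_lt_of_pos _ (by norm_num)
    have h4 : 0 ≤ (-q) % 12 := Int.emod_nonneg _ (by norm_num)
    omega
  · have h4 : 0 ≤ (-q) % 12 := Int.emod_nonneg _ (by norm_num)
    have h5 : ((((-q) % 12).toNat : ℕ) : ℝ) = (((-q) % 12 : ℤ) : ℝ) := by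
      have : ((((-q) % 12).toNat : ℕ) : ℤ) = (-q) % 12 := Int.toNat_of_nonneg h4
      exact_mod_cast congrArg (fun z : ℤ => (z : ℝ)) this
    rw [h5]
    have h6 : (((-q) % 12 : ℤ) : ℝ) = -q - 12 * (((-q) / 12 : ℤ) : ℝ) := by
      have := Int.emod_def (-q) 12
      rw [this]
      push_cast
      ring
    rw [h6]
    have h7 : θ + (-(q : ℝ) - 12 * (((-q) / 12 : ℤ) : ℝ)) * (Real.pi / 6) =
        (θ - q * (Real.pi / 6)) - (((-q) / 12 : ℤ) : ℝ) * (2 * Real.pi) := by
      ring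
    rw [h7, Real.cos_sub_int_mul_two_pi]
    have h8 := Real.one_sub_sq_div_two_le_cos (x := θ - q * (Real.pi / 6))
    have h9 : (θ - q * (Real.pi / 6)) ^ 2 ≤ (Real.pi / 12) ^ 2 := by
      rw [← sq_abs]
      exact pow_le_pow_left₀ (abs_nonneg _) h2 2
    have h10 : Real.pi < 3.15 := Real.pi_lt_d2
    have h11 : (Real.pi / 12) ^ 2 ≤ 7 / 100 := by nlinarith
    linarith

/-- the parameters -/
structure Par (n N M : ℕ) (r L V : ℝ) : Prop where
  hn : 160 ≤ n
  hr : r = 1 / (n : ℝ)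
  hM : 1 ≤ M
  hN : 24576 * M ≤ N
  hL : L = 16 * (r / N) ^ 2
  hV : V = (r / (64 * M)) / L

namespace Par

variable {n N M : ℕ} {r L V : ℝ}

theorem n0 (h : Par n N M r L V) : (0 : ℝ) < n := by
  have := h.hn
  exact_mod_cast (by omega : 0 < n)

theorem r0 (h : Par n N M r L V) : 0 < r := by
  rw [h.hr]
  have := h.n0
  positivity

theorem M0 (h : Par n N M r L V) : (1 : ℝ) ≤ M := by exact_mod_cast h.hM

theorem NM (h : Par n N M r L V) : 24576 * (M : ℝ) ≤ N := by exact_mod_cast h.hN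

theorem N0 (h : Par n N M r L V) : (24576 : ℝ) ≤ N := by
  have h1 := h.NM
  have h2 := h.M0
  linarith

theorem L0 (h : Par n N M r L V) : 0 < L := by
  rw [h.hL]
  have h1 := h.r0
  have h2 := h.N0
  positivity

theorem V0 (h : Par n N M r L V) : 0 < V := by
  rw [h.hV]
  have h1 := h.r0
  have h2 := h.M0
  have h3 := h.L0
  positivity

theorem VL (h : Par n N M r L V) : V * L = r / (64 * M) := by
  rw [h.hV]
  exact div_mul_cancel₀ _ h.L0.ne'

/-- `σ (x - ρ) ≥ 4.2` -/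
theorem sig (h : Par n N M r L V) {y : ℝ} (hy : 24 / 10 * (r / N) ≤ y) :
    42 / 10 ≤ V / 8 * (y - r / N) := by
  have h1 := h.r0
  have h2 := h.N0
  have h3 := h.M0
  have h4 := h.NM
  have hN0 : (0 : ℝ) < N := by linarith
  have hM0 : (0 : ℝ) < M := by linarith
  have e : V = (N : ℝ) ^ 2 / (1024 * M * r) := by
    rw [h.hV, h.hL]
    field_simp
    norm_num
  have h5 : 14 / 10 * (r / N) ≤ y - r / N := by linarith
  calc (42 : ℝ) / 10 ≤ 14 / 10 * (N / (8192 * M)) := by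
        rw [show (42 : ℝ) / 10 = 14 / 10 * 3 by norm_num]
        have : (3 : ℝ) ≤ N / (8192 * M) := by
          rw [le_div_iff₀ (by positivity)]
          linarith
        linarith
    _ = V / 8 * (14 / 10 * (r / N)) := by
        rw [e]
        field_simp
        norm_num
    _ ≤ V / 8 * (y - r / N) := by
        have := h.V0
        gcongr

theorem aW_eq (h : Par n N M r L V) : aW r L = 128 * (Real.pi ^ 2 + 1) / (N : ℝ) ^ 2 := by
  have h1 := h.r0
  have h2 := h.N0
  have hN0 : (0 : ℝ) < N := by linarith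
  unfold aW
  rw [h.hL]
  field_simp
  ring

theorem aP_eq (h : Par n N M r L V) : aP r L V = aW r L + 1 / (16 * M) := by
  have h1 := h.r0
  have h3 := h.M0
  have hM0 : (0 : ℝ) < M := by linarith
  unfold aP
  have e : 4 * V * L / r = 4 * (V * L) / r := by ring
  rw [e, h.VL]
  field_simp
  ring

theorem aW0 (h : Par n N M r L V) : 0 ≤ aW r L := by
  rw [h.aW_eq]
  positivity

theorem aP0 (h : Par n N M r L V) : 0 ≤ aP r L V := by
  rw [h.aP_eq]
  have := h.aW0
  positivity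

theorem sum_le (h : Par n N M r L V) {j : ℕ} (hj : j ≤ M) :
    (j : ℝ) * aP r L V + j * aW r L ≤ 1 / 8 := by
  have h1 := h.r0
  have h2 := h.N0
  have h3 := h.M0
  have h4 := h.NM
  have hN0 : (0 : ℝ) < N := by linarith
  have hM0 : (0 : ℝ) < M := by linarith
  have hj' : (j : ℝ) ≤ M := by exact_mod_cast hj
  have hpi : Real.pi ^ 2 ≤ 10 := by
    have := Real.pi_lt_d2
    have := Real.pi_pos
    nlinarith
  have hW : aW r L ≤ 1 / (32 * M) / 2 := by
    rw [h.aW_eq, div_div, div_le_div_iff₀ (by positivity) (by positivity)]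
    have h5 : (24576 * (M : ℝ)) ^ 2 ≤ (N : ℝ) ^ 2 := pow_le_pow_left₀ (by positivity) h4 2
    nlinarith
  have e : (j : ℝ) * aP r L V + j * aW r L = j * (2 * aW r L + 1 / (16 * M)) := by
    rw [h.aP_eq]
    ring
  rw [e]
  have h6 : 2 * aW r L + 1 / (16 * M) ≤ 1 / (32 * M) + 1 / (16 * M) := by linarith
  have h7 : 0 ≤ 1 / (32 * (M : ℝ)) + 1 / (16 * M) := by positivity
  calc (j : ℝ) * (2 * aW r L + 1 / (16 * M)) ≤ j * (1 / (32 * M) + 1 / (16 * M)) := by gcongr
    _ ≤ M * (1 / (32 * M) + 1 / (16 * M)) := by gcongr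
    _ ≤ 1 / 8 := by
        have : (M : ℝ) * (1 / (32 * M) + 1 / (16 * M)) = 3 / 32 := by
          field_simp
          norm_num
        rw [this]
        norm_num

end Par

theorem near_sum {n N M : ℕ} {r L V : ℝ} (h : Par n N M r L V) {x : Fin 2 → ℝ}
    (h1 : 24 / 10 * (r / N) ≤ x 0) (h2 : x 0 ≤ r / 8) :
    1 / 8 ≤ ∑ k ∈ Finset.range 12,
      jj (psiA r (V / 8) (r / N) (7 / 8) ![x 0, x 1 + (k : ℝ) * (r / 12)]) := by
  obtain ⟨k, hk, hc⟩ := exists_shift (2 * Real.pi * x 1 / r)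
  have hr0 := h.r0
  have hN := h.N0
  refine le_trans ?_ (Finset.single_le_sum (fun k _ => jj_nonneg _) hk)
  apply jj_half
  unfold psiA
  have e : 2 * Real.pi * (![x 0, x 1 + (k : ℝ) * (r / 12)] : Fin 2 → ℝ) 1 / r =
      2 * Real.pi * x 1 / r + (k : ℝ) * (Real.pi / 6) := by
    simp only [Matrix.cons_val_one, Matrix.cons_val_fin_one]
    field_simp
    ring
  rw [e]
  simp only [Matrix.cons_val_zero]
  have hs := h.sig h1
  have h3 : Real.exp (-(V / 8) * (x 0 - r / N)) ≤ 1 / (52 / 10) := by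
    rw [neg_mul, Real.exp_neg, ← one_div]
    apply one_div_le_one_div_of_le (by norm_num)
    have := Real.add_one_le_exp (V / 8 * (x 0 - r / N))
    linarith
  have h4 : 4 * (x 0 / r) ^ 2 ≤ 1 / 16 := by
    have h5 : 0 ≤ x 0 / r := by
      apply div_nonneg _ hr0.le
      refine le_trans ?_ h1
      have : (0 : ℝ) < N := by linarith
      positivity
    have h6 : x 0 / r ≤ 1 / 8 := by
      rw [div_le_iff₀ hr0]
      linarith
    nlinarith
  norm_num at h3 ⊢
  linarith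

theorem end_near (hG : S_GP) {r R σ l A : ℝ} {x : Fin 2 → ℝ} (hr : 0 < r) (hR : 0 < R)
    (hR20 : R ≤ 20 * r) (hσ : 0 < σ) (hA : A ≤ 1) (hl : r / 512 ≤ l) (hx : 0 < x 0) :
    jj (psiA r σ l A x) ≤ 10240 * Gp (x 0 / R) := by
  obtain ⟨_, _, _, ⟨_, hG1, hG2, hG3, _⟩, _⟩ := hG
  have hy : 0 ≤ x 0 / R := by positivity
  have hGn := (hG2 _ hy).1
  by_cases hp : 0 < psiA r σ l A x
  · have h1 := psiA_pos hσ hA hp
    have h2 : jj (psiA r σ l A x) ≤ 1 := jj_le_one ((psiA_le _ _ _ _ _).trans hA)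
    have h3 : 1 / 10240 ≤ x 0 / R := by
      rw [le_div_iff₀ hR]
      linarith
    have h4 : 1 / 10240 ≤ Gp (x 0 / R) := by
      rcases le_total (x 0 / R) 1 with h5 | h5
      · exact h3.trans (hG3 _ hy h5)
      · rw [hG1 _ h5]
        norm_num
    linarith
  · rw [jj_of_nonpos (not_lt.1 hp)]
    positivity

theorem end_far (hG : S_GP) {r R l w : ℝ} {x : Fin 2 → ℝ} (hr : 0 < r) (hR : 0 < R)
    (hR20 : R ≤ 20 * r) (hw : 0 < w) (hl : 5 * r / 64 ≤ l) (hx : 0 < x 0) :
    Sg ((x 0 - l) / w) ≤ 256 * Gp (x 0 / R) := by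
  obtain ⟨_, _, _, ⟨_, hG1, hG2, hG3, _⟩, ⟨hS0, _, hS1, _⟩, _⟩ := hG
  have hy : 0 ≤ x 0 / R := by positivity
  have hGn := (hG2 _ hy).1
  rcases le_total (x 0) l with h | h
  · rw [hS0 _ (div_nonpos_of_nonpos_of_nonneg (by linarith) hw.le)]
    positivity
  · have h2 := (hS1 ((x 0 - l) / w)).2
    have h3 : 1 / 256 ≤ x 0 / R := by
      rw [le_div_iff₀ hR]
      linarith
    have h4 : 1 / 256 ≤ Gp (x 0 / R) := by
      rcases le_total (x 0 / R) 1 with h5 | h5
      · exact h3.trans (hG3 _ hy h5)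
      · rw [hG1 _ h5]
        norm_num
    linarith

theorem meas_psi (r σ l A : ℝ) : Measurable (fun x : Fin 2 → ℝ => jj (psiA r σ l A x)) := by
  unfold psiA jj
  fun_prop

theorem main (hFREG : S_FREG) (hW : S_WST) (hP : S_PST) (hG : S_GP) : S_CRE := by
  intro T b f u v hS n N M m t0 r L V R hn hr h12 hM hN hL hV hm1 hmM hMm ht0 htT hR hR20 hf
    hpul hwait hper
  have par : Par n N M r L V := ⟨hn, hr, hM, hN, hL, hV⟩
  have hr0 := par.r0
  have hL0 := par.L0
  have hV0 := par.V0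
  have hN0 := par.N0
  have hM0 := par.M0
  have hNp : (0 : ℝ) < N := by linarith
  have hMp : (0 : ℝ) < M := by linarith
  have hVL := par.VL
  have hrn : r ≤ 1 / 160 := by
    rw [hr]
    apply one_div_le_one_div_of_le (by norm_num)
    exact_mod_cast hn
  set ρ : ℝ := r / N with hρ
  have hρ0 : 0 < ρ := by positivity
  have hρr : ρ ≤ r / 24576 := by
    rw [hρ]
    gcongr
  have hn8 : 8 ≤ n := by omega
  -- regularity
  obtain ⟨hBMP, -, -, -⟩ := hFREG 2 T b f u v hS.hT hS.sol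
  obtain ⟨B, hB⟩ := hBMP.bdd
  have hum : ∀ t, Measurable (u t) := fun t =>
    hBMP.meas.comp (measurable_const.prodMk measurable_id)
  have integ : ∀ (t : ℝ) (g : (Fin 2 → ℝ) → ℝ) (C : ℝ), Measurable g → (∀ x ∈ Q4, |g x| ≤ C) →
      IntegrableOn (fun x => u t x * g x) Q4 := by
    intro t g C hg hC
    refine Measure.integrableOn_of_bounded (M := B * C) volQ4
      ((hum t).mul hg).aestronglyMeasurable ?_
    rw [ae_restrict_iff' measQ4]
    refine Filter.Eventually.of_forall fun x hx => ?_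
    rw [Real.norm_eq_abs, abs_mul]
    have h0 := hB t x
    have h1 := hC x hx
    have h2 := abs_nonneg (u t x)
    have h3 := abs_nonneg (g x)
    exact mul_le_mul h0 h1 h3 (h2.trans h0)
  have hup : ∀ t, t ≤ T → ∀ x ∈ Q4, 0 ≤ u t x := by
    intro t ht x hx
    exact hS.up t x ht hx.1.le hx.2.1.le
  -- times
  have htime : ∀ i : ℕ, i < m → t0 + (2 * (i : ℝ) + 1) * L ≤ T := by
    intro i hi
    refine le_trans ?_ htT
    have h1 : (i : ℝ) + 1 ≤ m := by exact_mod_cast hi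
    have h2 : (2 * (i : ℝ) + 1) * L ≤ (2 * m - 1) * L := by
      apply mul_le_mul_of_nonneg_right _ hL0.le
      linarith
    linarith
  have hP' := hP T b f u v hS n
  have hW' := hW T b f u v hS n
  rw [← hr] at hP' hW'
  -- pulse
  have pulse : ∀ i : ℕ, i < m → ∀ (σ l A w : ℝ), 0 < σ → 0 < w →
      (σ ≤ V / 2 → ρ ≤ l → 0 ≤ A → A + aP r L V ≤ 1 →
        ∫ x in Q4, u (t0 + 2 * (i : ℝ) * L) x * jj (psiA r σ l A x)
          ≤ ∫ x in Q4, u (t0 + (2 * (i : ℝ) + 1) * L) x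
            * jj (psiA r σ (l + (V / 2 - σ) * L) (A + aP r L V) x)) ∧
      (ρ ≤ l - V * L → l + w ≤ 1 / 8 →
        Real.exp (-(12 * L / w ^ 2)) * ∫ x in Q4, u (t0 + 2 * (i : ℝ) * L) x * Sg ((x 0 - l) / w)
          ≤ ∫ x in Q4, u (t0 + (2 * (i : ℝ) + 1) * L) x * Sg ((x 0 - (l - V * L)) / w)) := by
    intro i hi σ l A w hσ hw
    have e : t0 + 2 * (i : ℝ) * L + L = t0 + (2 * (i : ℝ) + 1) * L := by ring
    have h := hP' (t0 + 2 * (i : ℝ) * L) L σ l A ρ w V hn8 (by positivity) hL0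
      (by rw [e]; exact htime i hi) hσ hρ0 hw hV0
      (by
        intro τ x h1 h2 hx hy
        rw [e] at h2
        exact (hpul i hi τ x h1 h2 hx hy).1)
      (by
        intro τ x h1 h2 hx hy hy2
        rw [e] at h2
        exact (hpul i hi τ x h1 h2 hx hy).2 hy2)
    rw [e] at h
    exact h
  -- waiting
  have wait : ∀ i : ℕ, i + 1 < m → ∀ (σ l A w : ℝ), 0 < σ → 0 < w →
      (ρ ≤ l - σ * L → 0 ≤ A → A + aW r L ≤ 1 →
        ∫ x in Q4, u (t0 + (2 * (i : ℝ) + 1) * L) x * jj (psiA r σ l A x)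
          ≤ ∫ x in Q4, u (t0 + 2 * ((i + 1 : ℕ) : ℝ) * L) x
            * jj (psiA r σ (l - σ * L) (A + aW r L) x)) ∧
      (ρ ≤ l → l + w ≤ 1 / 8 →
        Real.exp (-(12 * L / w ^ 2)) *
            ∫ x in Q4, u (t0 + (2 * (i : ℝ) + 1) * L) x * Sg ((x 0 - l) / w)
          ≤ ∫ x in Q4, u (t0 + 2 * ((i + 1 : ℕ) : ℝ) * L) x * Sg ((x 0 - l) / w)) := by
    intro i hi σ l A w hσ hw
    have e : t0 + (2 * (i : ℝ) + 1) * L + L = t0 + 2 * ((i + 1 : ℕ) : ℝ) * L := by
      push_cast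
      ring
    have e2 : t0 + 2 * ((i + 1 : ℕ) : ℝ) * L = t0 + (2 * (i : ℝ) + 2) * L := by
      push_cast
      ring
    have h := hW' (t0 + (2 * (i : ℝ) + 1) * L) L σ l A ρ w hn8 (by positivity) hL0
      (by
        rw [e]
        have h1 := htime (i + 1) hi
        push_cast at h1 ⊢
        nlinarith) hσ hρ0 hw
      (by
        intro τ x h1 h2 hx hy j
        rw [e, e2] at h2
        exact hwait i hi τ x h1 h2 hx hy j)
    rw [e] at h
    exact h
  set σ : ℝ := V / 8 with hσ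
  have hσ0 : 0 < σ := by positivity
  have hσL : σ * L = V * L / 8 := by rw [hσ]; ring
  set w : ℝ := r / 32 with hw
  have hw0 : 0 < w := by positivity
  -- near induction
  have near : ∀ i : ℕ, i < m →
      ∫ x in Q4, u t0 x * jj (psiA r σ ρ (7 / 8) x) ≤
        ∫ x in Q4, u (t0 + (2 * (i : ℝ) + 1) * L) x *
          jj (psiA r σ (ρ + (2 * (i : ℝ) + 3) / 8 * (V * L))
            (7 / 8 + ((i : ℝ) + 1) * aP r L V + i * aW r L) x) := by
    intro i
    induction i with
    | zero =>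
      intro hi
      have hs := par.sum_le (j := 1) hM
      have h0 := par.aW0
      push_cast at hs
      have h := (pulse 0 hi σ ρ (7 / 8) w hσ0 hw0).1 (by rw [hσ]; linarith) le_rfl (by norm_num)
        (by linarith)
      have e1 : t0 + 2 * ((0 : ℕ) : ℝ) * L = t0 := by simp
      have e2 : ρ + (V / 2 - σ) * L = ρ + (2 * ((0 : ℕ) : ℝ) + 3) / 8 * (V * L) := by
        rw [hσ]; push_cast; ring
      have e3 : 7 / 8 + aP r L V = 7 / 8 + (((0 : ℕ) : ℝ) + 1) * aP r L V + ((0 : ℕ) : ℝ) * aW r L := by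
        push_cast; ring
      rw [e1, e2, e3] at h
      exact h
    | succ i ih =>
      intro hi
      have hs := par.sum_le (j := i + 2) (by omega)
      have h0 := par.aW0
      have h0' := par.aP0
      push_cast at hs
      have hi0 : (0 : ℝ) ≤ i := Nat.cast_nonneg i
      have hVL0 : 0 < V * L := by positivity
      have hiP : 0 ≤ (i : ℝ) * aP r L V := by positivity
      have hiW : 0 ≤ (i : ℝ) * aW r L := by positivity
      have hiVL : 0 ≤ (i : ℝ) * (V * L) := by positivity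
      have hw1 := (wait i hi σ (ρ + (2 * (i : ℝ) + 3) / 8 * (V * L))
        (7 / 8 + ((i : ℝ) + 1) * aP r L V + i * aW r L) w hσ0 hw0).1
        (by rw [hσL]; nlinarith) (by positivity) (by nlinarith)
      have hp1 := (pulse (i + 1) hi σ (ρ + (2 * (i : ℝ) + 3) / 8 * (V * L) - σ * L)
        (7 / 8 + ((i : ℝ) + 1) * aP r L V + i * aW r L + aW r L) w hσ0 hw0).1
        (by rw [hσ]; linarith) (by rw [hσL]; nlinarith) (by positivity) (by nlinarith)
      have e2 : ρ + (2 * (i : ℝ) + 3) / 8 * (V * L) - σ * L + (V / 2 - σ) * L =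
          ρ + (2 * ((i + 1 : ℕ) : ℝ) + 3) / 8 * (V * L) := by
        rw [hσ]; push_cast; ring
      have e3 : 7 / 8 + ((i : ℝ) + 1) * aP r L V + i * aW r L + aW r L + aP r L V =
          7 / 8 + (((i + 1 : ℕ) : ℝ) + 1) * aP r L V + ((i + 1 : ℕ) : ℝ) * aW r L := by
        push_cast; ring
      rw [e2, e3] at hp1
      exact (ih (by omega)).trans (hw1.trans hp1)
  -- far induction
  set q : ℝ := Real.exp (-(12 * L / w ^ 2)) with hq
  have hq0 : 0 < q := Real.exp_pos _
  have hshift : ∀ i : ℕ, i < m → ((i : ℝ) + 1) * (V * L) ≤ r / 64 := by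
    intro i hi
    have h1 : (i : ℝ) + 1 ≤ M := by exact_mod_cast (by omega : i + 1 ≤ M)
    calc ((i : ℝ) + 1) * (V * L) ≤ M * (V * L) := by
          have : 0 < V * L := by positivity
          gcongr
      _ = r / 64 := by
          rw [hVL]
          field_simp
  have far : ∀ i : ℕ, i < m →
      q ^ (2 * i + 1) * ∫ x in Q4, u t0 x * Sg ((x 0 - 3 * r / 32) / w) ≤
        ∫ x in Q4, u (t0 + (2 * (i : ℝ) + 1) * L) x *
          Sg ((x 0 - (3 * r / 32 - ((i : ℝ) + 1) * (V * L))) / w) := by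
    intro i
    induction i with
    | zero =>
      intro hi
      have hs := hshift 0 hi
      have h := (pulse 0 hi σ (3 * r / 32) (7 / 8) w hσ0 hw0).2
        (by push_cast at hs; linarith) (by rw [hw]; linarith)
      have e1 : t0 + 2 * ((0 : ℕ) : ℝ) * L = t0 := by simp
      have e2 : 3 * r / 32 - V * L = 3 * r / 32 - (((0 : ℕ) : ℝ) + 1) * (V * L) := by
        push_cast; ring
      rw [e1, e2] at h
      simpa using h
    | succ i ih =>
      intro hi
      have hs := hshift i (by omega)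
      have hs' := hshift (i + 1) hi
      have hVL0 : 0 < V * L := by positivity
      have hiVL : 0 ≤ (i : ℝ) * (V * L) := by positivity
      have hw1 := (wait i hi σ (3 * r / 32 - ((i : ℝ) + 1) * (V * L)) (7 / 8) w hσ0 hw0).2
        (by linarith) (by rw [hw]; nlinarith)
      have hp1 := (pulse (i + 1) hi σ (3 * r / 32 - ((i : ℝ) + 1) * (V * L)) (7 / 8) w hσ0 hw0).2
        (by push_cast at hs'; nlinarith) (by rw [hw]; nlinarith)
      have e2 : 3 * r / 32 - ((i : ℝ) + 1) * (V * L) - V * L =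
          3 * r / 32 - (((i + 1 : ℕ) : ℝ) + 1) * (V * L) := by
        push_cast; ring
      rw [e2] at hp1
      have h1 := ih (by omega)
      calc q ^ (2 * (i + 1) + 1) * ∫ x in Q4, u t0 x * Sg ((x 0 - 3 * r / 32) / w)
          = q * (q * (q ^ (2 * i + 1) * ∫ x in Q4, u t0 x * Sg ((x 0 - 3 * r / 32) / w))) := by
            ring
        _ ≤ q * (q * ∫ x in Q4, u (t0 + (2 * (i : ℝ) + 1) * L) x *
              Sg ((x 0 - (3 * r / 32 - ((i : ℝ) + 1) * (V * L))) / w)) := by gcongr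
        _ ≤ q * ∫ x in Q4, u (t0 + 2 * ((i + 1 : ℕ) : ℝ) * L) x *
              Sg ((x 0 - (3 * r / 32 - ((i : ℝ) + 1) * (V * L))) / w) := by gcongr
        _ ≤ _ := hp1
  -- the end
  have hm1' : m - 1 < m := by omega
  have hmc : ((m - 1 : ℕ) : ℝ) = (m : ℝ) - 1 := by
    rw [Nat.cast_sub hm1, Nat.cast_one]
  have eT : t0 + (2 * ((m - 1 : ℕ) : ℝ) + 1) * L = t0 + (2 * m - 1) * L := by
    rw [hmc]; ring
  have hMm' : (M : ℝ) ≤ 2 * m := by exact_mod_cast hMm
  have hTle : t0 + (2 * (m : ℝ) - 1) * L ≤ T := htT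
  have ht0T : t0 ≤ T := by
    have h1 : (1 : ℝ) ≤ m := by exact_mod_cast hm1
    have : 0 ≤ (2 * (m : ℝ) - 1) * L := by
      apply mul_nonneg _ hL0.le
      linarith
    linarith
  have hGm : Measurable (fun x : Fin 2 → ℝ => Gp (x 0 / R)) :=
    hG.1.continuous.measurable.comp
      (((measurable_pi_apply (0 : Fin 2)) : Measurable fun x : Fin 2 → ℝ => x 0).div_const R)
  have hSm : ∀ l : ℝ, Measurable (fun x : Fin 2 → ℝ => Sg ((x 0 - l) / w)) := fun l =>
    hG.2.1.continuous.measurable.comp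
      ((((measurable_pi_apply (0 : Fin 2)) : Measurable fun x : Fin 2 → ℝ => x 0).sub_const l).div_const w)
  have hGb : ∀ x ∈ Q4, 0 ≤ Gp (x 0 / R) ∧ |Gp (x 0 / R)| ≤ 1 := by
    intro x hx
    have h1 : 0 ≤ x 0 / R := div_nonneg hx.1.le hR.le
    have h2 := hG.2.2.2.1.2.2.1 _ h1
    exact ⟨h2.1, by rw [abs_of_nonneg h2.1]; exact h2.2.1⟩
  have hSb : ∀ y, 0 ≤ Sg y ∧ Sg y ≤ 1 := hG.2.2.2.2.1.2.2.1
  have hGint : IntegrableOn (fun x => u (t0 + (2 * (m : ℝ) - 1) * L) x * Gp (x 0 / R)) Q4 :=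
    integ _ _ 1 hGm fun x hx => (hGb x hx).2
  set I : ℝ := ∫ x in Q4, u (t0 + (2 * (m : ℝ) - 1) * L) x * Gp (x 0 / R) with hI
  have hI0 : 0 ≤ I := by
    apply setIntegral_nonneg measQ4
    intro x hx
    exact mul_nonneg (hup _ hTle x hx) (hGb x hx).1
  have hjb : ∀ (l A : ℝ), A ≤ 1 → ∀ x, |jj (psiA r σ l A x)| ≤ 1 := by
    intro l A hA x
    rw [abs_of_nonneg (jj_nonneg _)]
    exact jj_le_one ((psiA_le _ _ _ _ _).trans hA)
  -- near part
  have hnear1 : ∫ x in Q4, u t0 x * jj (psiA r σ ρ (7 / 8) x) ≤ 10240 * I := by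
    have h1 := near (m - 1) hm1'
    rw [eT] at h1
    refine h1.trans ?_
    have hA1 : 7 / 8 + (((m - 1 : ℕ) : ℝ) + 1) * aP r L V + ((m - 1 : ℕ) : ℝ) * aW r L ≤ 1 := by
      have hs := par.sum_le hmM
      have h0 := par.aW0
      rw [hmc]
      nlinarith
    have hl1 : r / 512 ≤ ρ + (2 * ((m - 1 : ℕ) : ℝ) + 3) / 8 * (V * L) := by
      rw [hmc, hVL]
      have h2 : (M : ℝ) / 8 * (r / (64 * M)) = r / 512 := by
        field_simp
        norm_num
      have h3 : (M : ℝ) / 8 * (r / (64 * M)) ≤ (2 * ((m : ℝ) - 1) + 3) / 8 * (r / (64 * M)) := by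
        apply mul_le_mul_of_nonneg_right _ (by positivity)
        linarith
      linarith
    rw [hI, ← integral_const_mul]
    refine setIntegral_mono_on (integ _ _ 1 (meas_psi _ _ _ _) fun x _ => hjb _ _ hA1 x)
      (hGint.const_mul _) measQ4 ?_
    intro x hx
    have h4 := end_near hG hr0 hR hR20 hσ0 hA1 hl1 hx.1
    have h5 := hup _ hTle x hx
    calc _ ≤ u (t0 + (2 * (m : ℝ) - 1) * L) x * (10240 * Gp (x 0 / R)) :=
          mul_le_mul_of_nonneg_left h4 h5
      _ = _ := by ring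
  -- far part
  have hfar1 : ∫ x in Q4, u t0 x * Sg ((x 0 - 3 * r / 32) / w) ≤ 512 * I := by
    have h1 := far (m - 1) hm1'
    rw [eT] at h1
    have hl1 : 5 * r / 64 ≤ 3 * r / 32 - (((m - 1 : ℕ) : ℝ) + 1) * (V * L) := by
      have := hshift (m - 1) hm1'
      linarith
    have h2 : ∫ x in Q4, u (t0 + (2 * (m : ℝ) - 1) * L) x *
        Sg ((x 0 - (3 * r / 32 - (((m - 1 : ℕ) : ℝ) + 1) * (V * L))) / w) ≤ 256 * I := by
      rw [hI, ← integral_const_mul]
      refine setIntegral_mono_on (integ _ _ 1 (hSm _) fun x _ => by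
        rw [abs_of_nonneg (hSb _).1]; exact (hSb _).2) (hGint.const_mul _) measQ4 ?_
      intro x hx
      have h4 := end_far hG hr0 hR hR20 hw0 hl1 hx.1
      have h5 := hup _ hTle x hx
      calc _ ≤ u (t0 + (2 * (m : ℝ) - 1) * L) x * (256 * Gp (x 0 / R)) :=
            mul_le_mul_of_nonneg_left h4 h5
        _ = _ := by ring
    have hqh : 1 / 2 ≤ q ^ (2 * (m - 1) + 1) := by
      rw [hq, ← Real.exp_nat_mul]
      refine le_trans ?_ (Real.add_one_le_exp _)
      push_cast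
      rw [hmc]
      have h6 : 12 * L / w ^ 2 = 196608 / (N : ℝ) ^ 2 := by
        rw [hL, hw, hρ]
        field_simp
        norm_num
      rw [h6]
      have h7 : (2 * ((m : ℝ) - 1) + 1) * (196608 / (N : ℝ) ^ 2) ≤ 1 / 2 := by
        have h8 : (m : ℝ) ≤ M := by exact_mod_cast hmM
        have h9 : (24576 * (M : ℝ)) ^ 2 ≤ (N : ℝ) ^ 2 := pow_le_pow_left₀ (by positivity) par.NM 2
        rw [mul_div_assoc', div_le_iff₀ (by positivity)]
        nlinarith
      linarith
    have hS0 : 0 ≤ ∫ x in Q4, u t0 x * Sg ((x 0 - 3 * r / 32) / w) := by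
      apply setIntegral_nonneg measQ4
      intro x hx
      exact mul_nonneg (hup _ ht0T x hx) (hSb _).1
    have h10 := mul_le_mul_of_nonneg_right hqh hS0
    linarith
  -- averaging over the shifts
  obtain ⟨N', hN'⟩ := h12
  have hN'0 : 0 < N' := by
    rcases Nat.eq_zero_or_pos N' with h | h
    · rw [h] at hN'
      rw [hN'] at hN0
      norm_num at hN0
    · exact h
  have hiter : ∀ (j : ℕ) (x : Fin 2 → ℝ), u t0 ![x 0, x 1 + (j : ℝ) * ρ] = u t0 x := by
    intro j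
    induction j with
    | zero =>
      intro x
      simp [eta2]
    | succ j ih =>
      intro x
      have h1 := hper ![x 0, x 1 + (j : ℝ) * ρ]
      simp only [Matrix.cons_val_zero, Matrix.cons_val_one, Matrix.cons_val_fin_one] at h1
      rw [ih x] at h1
      rw [← h1]
      congr 2
      push_cast
      congr 1
      ring
  have hper12 : ∀ (k : ℕ) (x : Fin 2 → ℝ), u t0 ![x 0, x 1 + (k : ℝ) * (r / 12)] = u t0 x := by
    intro k x
    have h1 := hiter (k * N') x
    have e : ((k * N' : ℕ) : ℝ) * ρ = (k : ℝ) * (r / 12) := by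
      rw [hρ, hN']
      have : (0 : ℝ) < N' := by exact_mod_cast hN'0
      push_cast
      field_simp
    rw [e] at h1
    exact h1
  have hpsiper : ∀ x : Fin 2 → ℝ, jj (psiA r σ ρ (7 / 8) ![x 0, x 1 + 1]) =
      jj (psiA r σ ρ (7 / 8) x) := by
    intro x
    unfold psiA
    simp only [Matrix.cons_val_zero, Matrix.cons_val_one, Matrix.cons_val_fin_one]
    have hnp := par.n0
    have e : 2 * Real.pi * (x 1 + 1) / r = 2 * Real.pi * x 1 / r + (n : ℝ) * (2 * Real.pi) := by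
      rw [hr]
      field_simp
    rw [e, Real.cos_add_nat_mul_two_pi]
  have huper : ∀ x : Fin 2 → ℝ, u t0 ![x 0, x 1 + 1] = u t0 x := by
    intro x
    have h1 := hBMP.per t0 x ![0, 1]
    rw [← h1]
    congr 1
    ext i
    fin_cases i <;> simp
  have hFper : ∀ x : Fin 2 → ℝ, u t0 ![x 0, x 1 + 1] * jj (psiA r σ ρ (7 / 8) ![x 0, x 1 + 1]) =
      u t0 x * jj (psiA r σ ρ (7 / 8) x) := by
    intro x
    rw [huper, hpsiper]
  have hFb : ∀ x : Fin 2 → ℝ, |u t0 x * jj (psiA r σ ρ (7 / 8) x)| ≤ B * 1 := by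
    intro x
    rw [abs_mul]
    exact mul_le_mul (hB t0 x) (hjb _ _ (by norm_num) x) (abs_nonneg _)
      ((abs_nonneg _).trans (hB t0 x))
  have hshiftint : ∀ k : ℕ, ∫ x in Q4, u t0 x *
      jj (psiA r σ ρ (7 / 8) ![x 0, x 1 + (k : ℝ) * (r / 12)]) =
      ∫ x in Q4, u t0 x * jj (psiA r σ ρ (7 / 8) x) := by
    intro k
    have htr := trans_int (F := fun x => u t0 x * jj (psiA r σ ρ (7 / 8) x))
      ((hum t0).mul (meas_psi r σ ρ (7 / 8))) hFb hFper ((k : ℝ) * (r / 12))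
    refine Eq.trans ?_ htr
    refine setIntegral_congr_fun measQ4 fun x _ => ?_
    change _ = u t0 ![x 0, x 1 + (k : ℝ) * (r / 12)] * _
    rw [hper12]
  have hvecm : ∀ a : ℝ, Measurable (fun x : Fin 2 → ℝ => (![x 0, x 1 + a] : Fin 2 → ℝ)) := by
    intro a
    apply measurable_pi_lambda
    intro i
    fin_cases i
    · exact measurable_pi_apply 0
    · exact ((measurable_pi_apply (1 : Fin 2)) : Measurable fun x : Fin 2 → ℝ => x 1).add_const a
  have hkint : ∀ k : ℕ, IntegrableOn (fun x => u t0 x *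
      jj (psiA r σ ρ (7 / 8) ![x 0, x 1 + (k : ℝ) * (r / 12)])) Q4 := fun k =>
    integ t0 _ 1 ((meas_psi r σ ρ (7 / 8)).comp (hvecm _)) fun x _ => hjb _ _ (by norm_num) _
  -- splitting
  have hsum12 : ∫ x in Q4, u t0 x * ∑ k ∈ Finset.range 12,
      jj (psiA r σ ρ (7 / 8) ![x 0, x 1 + (k : ℝ) * (r / 12)]) =
      12 * ∫ x in Q4, u t0 x * jj (psiA r σ ρ (7 / 8) x) := by
    simp only [Finset.mul_sum]
    rw [integral_finset_sum _ fun k _ => hkint k]
    simp only [hshiftint, Finset.sum_const, Finset.card_range, nsmul_eq_mul]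
    norm_num
  have hfinal : ∫ x in Q4, (if 24 / 10 * (r / N) ≤ x 0 then u t0 x else 0) ≤
      8 * (∫ x in Q4, u t0 x * ∑ k ∈ Finset.range 12,
        jj (psiA r σ ρ (7 / 8) ![x 0, x 1 + (k : ℝ) * (r / 12)])) +
      ∫ x in Q4, u t0 x * Sg ((x 0 - 3 * r / 32) / w) := by
    have hi1 : IntegrableOn (fun x => u t0 x * ∑ k ∈ Finset.range 12,
        jj (psiA r σ ρ (7 / 8) ![x 0, x 1 + (k : ℝ) * (r / 12)])) Q4 := by
      simp only [Finset.mul_sum]
      exact integrable_finset_sum _ fun k _ => hkint k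
    have hi2 : IntegrableOn (fun x => u t0 x * Sg ((x 0 - 3 * r / 32) / w)) Q4 :=
      integ _ _ 1 (hSm _) fun x _ => by rw [abs_of_nonneg (hSb _).1]; exact (hSb _).2
    rw [← integral_const_mul, ← integral_add (hi1.const_mul 8) hi2]
    have hi3 : IntegrableOn (fun x => if 24 / 10 * (r / N) ≤ x 0 then u t0 x else 0) Q4 := by
      have h := integ t0 (fun x => if 24 / 10 * (r / N) ≤ x 0 then 1 else 0) 1
        (Measurable.ite (measurableSet_le measurable_const (measurable_pi_apply 0))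
          measurable_const measurable_const)
        (fun x _ => by split_ifs <;> norm_num)
      refine h.congr_fun (fun x _ => ?_) measQ4
      simp only [mul_ite, mul_one, mul_zero]
    refine setIntegral_mono_on hi3 ((hi1.const_mul 8).add hi2) measQ4 ?_
    intro x hx
    have hu := hup t0 ht0T x hx
    have hsn : 0 ≤ ∑ k ∈ Finset.range 12,
        jj (psiA r σ ρ (7 / 8) ![x 0, x 1 + (k : ℝ) * (r / 12)]) :=
      Finset.sum_nonneg fun k _ => jj_nonneg _
    have hSn := (hSb ((x 0 - 3 * r / 32) / w)).1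
    split_ifs with h1
    · rcases le_total (x 0) (r / 8) with h2 | h2
      · have h3 := near_sum par h1 h2
        have h4 := mul_le_mul_of_nonneg_left h3 hu
        have h5 := mul_nonneg hu hSn
        change u t0 x ≤ 8 * (u t0 x * _) + u t0 x * _
        rw [← hρ, ← hσ] at h4
        linarith
      · have h3 : Sg ((x 0 - 3 * r / 32) / w) = 1 := by
          apply hG.2.2.2.2.1.2.1
          rw [le_div_iff₀ hw0, hw]
          linarith
        change u t0 x ≤ 8 * (u t0 x * _) + u t0 x * _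
        rw [h3]
        have h5 := mul_nonneg hu hsn
        linarith
    · change 0 ≤ 8 * (u t0 x * _) + u t0 x * _
      have h4 := mul_nonneg hu hsn
      have h5 := mul_nonneg hu hSn
      linarith
  rw [hsum12] at hfinal
  have : (1 / 10 ^ 6 : ℝ) * ∫ x in Q4, (if 24 / 10 * (r / N) ≤ x 0 then u t0 x else 0) ≤ I := by
    linarith
  exact this

end

end Pool.Agent.Helper78.ND.CRE
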